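import Mathlib

/-! Board hxb of helper15 (MP_c00ca1_co), row HTL: the tree lemma `tree_splits`. -/

set_option autoImplicit false

namespace Pool.Agent.H15.HX

open Finset

/-- one class `V x j = {j}` for at least half of the separating `x` -/
theorem tree_claim {κ β F : Type*} [DecidableEq κ] [DecidableEq F] (K : Finset κ) (Q : Finset β)
    (φ : β → κ → F) (d : ℕ) (hK : 2 ≤ K.card)
    (hsep : ∀ i ∈ K, ∀ j ∈ K, i ≠ j → d ≤ (Q.filter (fun x => φ x i ≠ φ x j)).card)
    (hds : ∀ x ∈ Q, ∀ y ∈ Q, ∀ i₁ ∈ K, ∀ i₂ ∈ K, ∀ i₃ ∈ K, ∀ i₄ ∈ K, φ y i₁ = φ y i₂ →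
      φ x i₂ = φ x i₃ → φ y i₃ = φ y i₄ → φ x i₁ ≠ φ x i₂ → φ y i₂ ≠ φ y i₃ →
      φ x i₃ ≠ φ x i₄ → False) :
    ∃ j ∈ K, d ≤ 2 * (Q.filter (fun x => K.filter (fun i => φ x i = φ x j) = {j})).card := by
  classical
  let P : Finset κ → Prop := fun S =>
    2 ≤ S.card ∧ (S = K ∨ ∃ z ∈ Q, ∃ c, S = K.filter (fun i => φ z i = c))
  have hne : (K.powerset.filter P).Nonempty :=
    ⟨K, by
      rw [Finset.mem_filter]
      exact ⟨Finset.mem_powerset_self K, hK, Or.inl rfl⟩⟩
  obtain ⟨S, hS, hmin⟩ := Finset.exists_min_image (K.powerset.filter P) Finset.card hne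
  rw [Finset.mem_filter, Finset.mem_powerset] at hS
  obtain ⟨hSK, hS2, hSP⟩ := hS
  obtain ⟨j, hj, j', hj', hjj⟩ := Finset.one_lt_card.1 (show 1 < S.card by omega)
  have hjK := hSK hj
  have hjK' := hSK hj'
  -- a class which is not a singleton leaves `S`
  have hleave : ∀ x ∈ Q, ∀ a ∈ S, ∀ b ∈ S, φ x a ≠ φ x b →
      K.filter (fun i => φ x i = φ x a) ≠ {a} →
      ∃ k ∈ K, φ x k = φ x a ∧ k ∉ S := by
    intro x hx a ha b hb hab hV
    by_contra hcon
    push_neg at hcon
    have haV : a ∈ K.filter (fun i => φ x i = φ x a) := by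
      rw [Finset.mem_filter]; exact ⟨hSK ha, rfl⟩
    have hVne : (K.filter (fun i => φ x i = φ x a)).Nonempty := ⟨a, haV⟩
    have h2 : 2 ≤ (K.filter (fun i => φ x i = φ x a)).card := by
      by_contra hlt
      have h1 : (K.filter (fun i => φ x i = φ x a)).card ≤ 1 := by omega
      apply hV
      rw [Finset.card_le_one] at h1
      ext i
      rw [Finset.mem_singleton]
      constructor
      · intro hi
        exact h1 i hi a haV
      · intro hi
        rw [hi]
        exact haV
    have hle := hmin (K.filter (fun i => φ x i = φ x a)) (by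
      rw [Finset.mem_filter, Finset.mem_powerset]
      exact ⟨Finset.filter_subset _ _, h2, Or.inr ⟨x, hx, φ x a, rfl⟩⟩)
    have hsub : K.filter (fun i => φ x i = φ x a) ⊆ S.erase b := by
      intro k hk
      rw [Finset.mem_filter] at hk
      rw [Finset.mem_erase]
      refine ⟨?_, hcon k hk.1 hk.2⟩
      rintro rfl
      exact hab hk.2.symm
    have h3 := Finset.card_le_card hsub
    have h4 := Finset.card_erase_lt_of_mem hb
    omega
  have hkey : ∀ x ∈ Q, φ x j ≠ φ x j' →
      K.filter (fun i => φ x i = φ x j) = {j} ∨ K.filter (fun i => φ x i = φ x j') = {j'} := by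
    intro x hx hxj
    by_contra hcon
    push_neg at hcon
    obtain ⟨k, hkK, hk1, hk2⟩ := hleave x hx j hj j' hj' hxj hcon.1
    obtain ⟨k', hkK', hk1', hk2'⟩ := hleave x hx j' hj' j hj (Ne.symm hxj) hcon.2
    rcases hSP with h | ⟨z, hz, c, hc⟩
    · exact hk2 (h ▸ hkK)
    · rw [hc, Finset.mem_filter] at hj hj' hk2 hk2'
      have h1 : φ z k ≠ c := fun h => hk2 ⟨hkK, h⟩
      have h2 : φ z k' ≠ c := fun h => hk2' ⟨hkK', h⟩
      refine hds z hz x hx k hkK j hjK j' hjK' k' hkK' hk1 ?_ hk1'.symm ?_ hxj ?_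
      · rw [hj.2, hj'.2]
      · rw [hj.2]; exact h1
      · rw [hj'.2]; exact Ne.symm h2
  have hd := hsep j hjK j' hjK' hjj
  have hsub : Q.filter (fun x => φ x j ≠ φ x j') ⊆
      Q.filter (fun x => K.filter (fun i => φ x i = φ x j) = {j}) ∪
      Q.filter (fun x => K.filter (fun i => φ x i = φ x j') = {j'}) := by
    intro x hx
    rw [Finset.mem_filter] at hx
    rw [Finset.mem_union, Finset.mem_filter, Finset.mem_filter]
    rcases hkey x hx.1 hx.2 with h | h
    · exact Or.inl ⟨hx.1, h⟩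
    · exact Or.inr ⟨hx.1, h⟩
  have h1 := Finset.card_le_card hsub
  have h2 := Finset.card_union_le
    (Q.filter (fun x => K.filter (fun i => φ x i = φ x j) = {j}))
    (Q.filter (fun x => K.filter (fun i => φ x i = φ x j') = {j'}))
  rcases Nat.lt_or_ge (2 * (Q.filter (fun x => K.filter (fun i => φ x i = φ x j) = {j})).card) d
    with h | h
  · exact ⟨j', hjK', by omega⟩
  · exact ⟨j, hjK, h⟩

theorem tree_splits {κ β F : Type*} [DecidableEq κ] [DecidableEq F] (K : Finset κ) (Q : Finset β)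
    (φ : β → κ → F) (d : ℕ) (hK : 2 ≤ K.card)
    (hsep : ∀ i ∈ K, ∀ j ∈ K, i ≠ j → d ≤ (Q.filter (fun x => φ x i ≠ φ x j)).card)
    (hds : ∀ x ∈ Q, ∀ y ∈ Q, ∀ i₁ ∈ K, ∀ i₂ ∈ K, ∀ i₃ ∈ K, ∀ i₄ ∈ K, φ y i₁ = φ y i₂ →
      φ x i₂ = φ x i₃ → φ y i₃ = φ y i₄ → φ x i₁ ≠ φ x i₂ → φ y i₂ ≠ φ y i₃ →
      φ x i₃ ≠ φ x i₄ → False) :
    d * K.card ≤ 2 * ∑ x ∈ Q, ((K.image (φ x)).card - 1) := by
  classical
  obtain ⟨n, hn⟩ : ∃ n, K.card = n + 2 := ⟨K.card - 2, by omega⟩
  induction n generalizing K with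
  | zero =>
    obtain ⟨i, j, hij, rfl⟩ := Finset.card_eq_two.1 (show K.card = 2 by omega)
    have h1 := hsep i (by simp) j (by simp) hij
    have h2 : (Q.filter (fun x => φ x i ≠ φ x j)).card ≤
        ∑ x ∈ Q, ((({i, j} : Finset κ).image (φ x)).card - 1) := by
      rw [Finset.card_filter]
      apply Finset.sum_le_sum
      intro x _
      by_cases h : φ x i ≠ φ x j
      · rw [if_pos h]
        have h3 : (({i, j} : Finset κ).image (φ x)).card = 2 := by
          rw [Finset.image_insert, Finset.image_singleton]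
          exact Finset.card_pair h
        omega
      · rw [if_neg h]
        exact Nat.zero_le _
    rw [hn]
    omega
  | succ n ih =>
    obtain ⟨j, hj, hjd⟩ := tree_claim K Q φ d hK hsep hds
    have hc : (K.erase j).card = n + 2 := by
      rw [Finset.card_erase_of_mem hj]; omega
    have hsubK : ∀ i ∈ K.erase j, i ∈ K := fun i hi => Finset.mem_of_mem_erase hi
    have h1 := ih (K.erase j) (by omega)
      (fun a ha b hb hab => hsep a (hsubK a ha) b (hsubK b hb) hab)
      (fun x hx y hy a ha b hb c hc' e he =>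
        hds x hx y hy a (hsubK a ha) b (hsubK b hb) c (hsubK c hc') e (hsubK e he)) hc
    have hne : (K.erase j).Nonempty := Finset.card_pos.1 (by omega)
    have h2 : ∑ x ∈ Q, (((K.erase j).image (φ x)).card - 1) +
        (Q.filter (fun x => K.filter (fun i => φ x i = φ x j) = {j})).card ≤
        ∑ x ∈ Q, ((K.image (φ x)).card - 1) := by
      rw [Finset.card_filter, ← Finset.sum_add_distrib]
      apply Finset.sum_le_sum
      intro x _
      have hpos : 1 ≤ ((K.erase j).image (φ x)).card :=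
        Finset.card_pos.2 (hne.image _)
      by_cases h : K.filter (fun i => φ x i = φ x j) = {j}
      · rw [if_pos h]
        have h3 : φ x j ∉ (K.erase j).image (φ x) := by
          intro hm
          rw [Finset.mem_image] at hm
          obtain ⟨k, hk, hk2⟩ := hm
          have hk3 : k ∈ K.filter (fun i => φ x i = φ x j) := by
            rw [Finset.mem_filter]; exact ⟨hsubK k hk, hk2⟩
          rw [h, Finset.mem_singleton] at hk3
          exact (Finset.ne_of_mem_erase hk) hk3
        have h4 : K.image (φ x) = insert (φ x j) ((K.erase j).image (φ x)) := by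
          rw [← Finset.image_insert, Finset.insert_erase hj]
        rw [h4, Finset.card_insert_of_notMem h3]
        omega
      · rw [if_neg h]
        have h3 := Finset.card_le_card
          (Finset.image_subset_image (f := φ x) (Finset.erase_subset j K))
        omega
    rw [hc] at h1
    rw [hn]
    nlinarith [h1, h2, hjd]

end Pool.Agent.H15.HX
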